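import Mathlib

set_option autoImplicit false

open MeasureTheory Measure Set Filter Topology
open scoped ENNReal NNReal

namespace Pool.H71.Bdry

/-- The projection forgetting the first coordinate. -/
noncomputable def tail (n : ℕ) :
    EuclideanSpace ℝ (Fin (n + 1)) →ₗ[ℝ] EuclideanSpace ℝ (Fin n) where
  toFun x := WithLp.toLp 2 (fun i => x i.succ)
  map_add' x y := by ext i; simp
  map_smul' c x := by ext i; simp

lemma tail_apply {n : ℕ} (x : EuclideanSpace ℝ (Fin (n + 1))) (i : Fin n) :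
    tail n x i = x i.succ := rfl

lemma norm_tail_le {n : ℕ} (x : EuclideanSpace ℝ (Fin (n + 1))) : ‖tail n x‖ ≤ ‖x‖ := by
  rw [EuclideanSpace.norm_eq, EuclideanSpace.norm_eq]
  apply Real.sqrt_le_sqrt
  rw [Fin.sum_univ_succ (n := n)]
  simp only [tail_apply]
  have : 0 ≤ ‖x 0‖ ^ 2 := by positivity
  linarith

lemma measurePreserving_tail (n : ℕ) :
    MeasurePreserving (fun x : EuclideanSpace ℝ (Fin (n + 1)) => (x 0, tail n x))
      volume (volume.prod volume) := by
  have h1 := PiLp.volume_preserving_ofLp (Fin (n + 1))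
  have h2 := volume_preserving_piFinSuccAbove (fun _ : Fin (n + 1) => ℝ) 0
  have h3 := PiLp.volume_preserving_toLp (Fin n)
  have h4 := (MeasurePreserving.id (volume : Measure ℝ)).prod h3
  exact h4.comp (h2.comp h1)

/-- For every unit vector `e` there are coordinates `(inner ℝ e x, π x)`. -/
lemma exists_coord {n : ℕ} (e : EuclideanSpace ℝ (Fin (n + 1))) (he : ‖e‖ = 1) :
    ∃ π : EuclideanSpace ℝ (Fin (n + 1)) →ₗ[ℝ] EuclideanSpace ℝ (Fin n),
      π e = 0 ∧ LipschitzWith 1 π ∧
      MeasurePreserving (fun x : EuclideanSpace ℝ (Fin (n + 1)) => (inner ℝ e x, π x))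
        volume (volume.prod volume) := by
  set e0 : EuclideanSpace ℝ (Fin (n + 1)) := EuclideanSpace.single 0 1 with he0
  have hn : ‖e‖ = ‖e0‖ := by simp [he0, he]
  let R : EuclideanSpace ℝ (Fin (n + 1)) ≃ₗᵢ[ℝ] EuclideanSpace ℝ (Fin (n + 1)) :=
    (ℝ ∙ (e - e0))ᗮ.reflection
  have hR : R e = e0 := Submodule.reflection_sub hn
  refine ⟨(tail n).comp R.toLinearEquiv.toLinearMap, ?_, ?_, ?_⟩
  · have : tail n e0 = 0 := by
      ext i
      simp [tail_apply, he0, Fin.succ_ne_zero]
    simpa [hR] using this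
  · refine LipschitzWith.of_dist_le_mul ?_
    intro x y
    rw [dist_eq_norm, dist_eq_norm, ← map_sub]
    simp only [NNReal.coe_one, one_mul, LinearMap.comp_apply]
    refine (norm_tail_le _).trans ?_
    exact (R.norm_map (x - y)).le
  · have h1 := (measurePreserving_tail n).comp (LinearIsometryEquiv.measurePreserving R)
    have hfun : (fun x : EuclideanSpace ℝ (Fin (n + 1)) =>
        (inner ℝ e x, ((tail n).comp R.toLinearEquiv.toLinearMap) x))
        = (fun x => (x 0, tail n x)) ∘ R := by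
      funext x
      have : (R x) 0 = inner ℝ e x := by
        rw [← R.inner_map_map e x, hR, he0]
        simp [EuclideanSpace.inner_single_left]
      simp [this]
    rw [hfun]
    exact h1

/-- The cylinder estimate. -/
lemma exists_cyl {n : ℕ} (e : EuclideanSpace ℝ (Fin (n + 1))) (he : ‖e‖ = 1)
    (a ε h : ℝ) (A : Set (EuclideanSpace ℝ (Fin (n + 1))))
    (hA : ∀ z ∈ A, a ≤ inner ℝ e z ∧ inner ℝ e z ≤ a + ε) :
    ∃ B : Set (EuclideanSpace ℝ (Fin (n + 1))), MeasurableSet B ∧
      (∀ z ∈ A, ∀ s ∈ Icc (0 : ℝ) h, z + s • e ∈ B) ∧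
      volume B ≤ ENNReal.ofReal (ε + h) * μHE[n] A := by
  obtain ⟨π, hπe, hπL, hπm⟩ := exists_coord e he
  refine ⟨(fun x => (inner ℝ e x, π x)) ⁻¹' (Icc a (a + (ε + h)) ×ˢ toMeasurable volume (π '' A)),
    ?_, ?_, ?_⟩
  · exact hπm.measurable (measurableSet_Icc.prod (measurableSet_toMeasurable _ _))
  · intro z hz s hs
    have h1 := hA z hz
    refine ⟨?_, ?_⟩
    · simp only [inner_add_right, inner_smul_right, real_inner_self_eq_norm_sq, he, mem_Icc]
      constructor <;> nlinarith [hs.1, hs.2, h1.1, h1.2]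
    · simp only [map_add, map_smul, hπe, smul_zero, add_zero]
      exact subset_toMeasurable _ _ (mem_image_of_mem _ hz)
  · rw [hπm.measure_preimage (measurableSet_Icc.prod (measurableSet_toMeasurable _ _)).nullMeasurableSet,
      Measure.prod_prod, Real.volume_Icc, measure_toMeasurable]
    have e1 : a + (ε + h) - a = ε + h := by ring
    rw [e1]
    gcongr
    rw [← EuclideanSpace.euclideanHausdorffMeasure_eq_volume, euclideanHausdorffMeasure_def,
      euclideanHausdorffMeasure_def, Measure.smul_apply, Measure.smul_apply]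
    have := hπL.hausdorffMeasure_image_le (d := n) (Nat.cast_nonneg n) A
    simp only [ENNReal.coe_one, ENNReal.one_rpow, one_mul] at this
    gcongr

/-- The key estimate: a function `F ≤ χ` which vanishes off the points having a point of `A`
at distance `≤ h` behind them in the direction `e`. -/
lemma key {n : ℕ} (e : EuclideanSpace ℝ (Fin (n + 1))) (he : ‖e‖ = 1)
    (ε h : ℝ) (hε : 0 < ε) (A : Set (EuclideanSpace ℝ (Fin (n + 1))))
    (hA : MeasurableSet A) (χ : EuclideanSpace ℝ (Fin (n + 1)) → ℝ)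
    (L : ℝ≥0) (hL : LipschitzWith L χ)
    (F : EuclideanSpace ℝ (Fin (n + 1)) → ℝ≥0∞) (hF : ∀ x, F x ≤ ENNReal.ofReal (χ x))
    (hF0 : ∀ x, F x ≠ 0 → ∃ s ∈ Icc (0 : ℝ) h, x - s • e ∈ A) :
    ∫⁻ x, F x ≤ ENNReal.ofReal (ε + h) *
      ∫⁻ x in A, ENNReal.ofReal (χ x + (ε + L * h)) ∂(μHE[n]) := by
  classical
  set P : EuclideanSpace ℝ (Fin (n + 1)) → ℤ × ℤ :=
    fun z => (⌊inner ℝ e z / ε⌋, ⌊χ z / ε⌋) with hP
  have hPm : Measurable P := by
    refine Measurable.prodMk ?_ ?_
    · exact Int.measurable_floor.comp ((continuous_const.inner continuous_id).measurable.div_const ε)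
    · exact Int.measurable_floor.comp (hL.continuous.measurable.div_const ε)
  have hB : ∀ p : ℤ × ℤ, ∃ B : Set (EuclideanSpace ℝ (Fin (n + 1))), MeasurableSet B ∧
      (∀ z ∈ A ∩ P ⁻¹' {p}, ∀ s ∈ Icc (0 : ℝ) h, z + s • e ∈ B) ∧
      volume B ≤ ENNReal.ofReal (ε + h) * μHE[n] (A ∩ P ⁻¹' {p}) := by
    intro p
    refine exists_cyl e he (p.1 * ε) ε h _ ?_
    rintro z ⟨-, hz⟩
    have h1 : ⌊inner ℝ e z / ε⌋ = p.1 := congrArg Prod.fst hz
    have h2 := Int.floor_le (inner ℝ e z / ε)
    have h3 := (Int.lt_floor_add_one (inner ℝ e z / ε)).le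
    rw [h1] at h2 h3
    rw [le_div_iff₀ hε] at h2
    rw [div_le_iff₀ hε] at h3
    constructor <;> nlinarith
  choose B hBm hBs hBv using hB
  set c : ℤ × ℤ → ℝ≥0∞ := fun p => ENNReal.ofReal ((p.2 + 1) * ε + L * h) with hc
  have hpt : ∀ x, F x ≤ ∑' p, (B p).indicator (fun _ => c p) x := by
    intro x
    by_cases hx : F x = 0
    · rw [hx]; exact bot_le
    obtain ⟨s, hs, hsA⟩ := hF0 x hx
    set z := x - s • e with hz
    have hxB : x ∈ B (P z) := by
      have := hBs (P z) z ⟨hsA, rfl⟩ s hs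
      simpa [hz] using this
    refine le_trans ?_ (ENNReal.le_tsum (P z))
    rw [indicator_of_mem hxB]
    refine (hF x).trans (ENNReal.ofReal_le_ofReal ?_)
    have h1 : χ x ≤ χ z + L * h := by
      have h2 := hL.dist_le_mul x z
      have h3 : dist x z = |s| := by
        rw [hz, dist_eq_norm]
        simp [norm_smul, he]
      rw [h3, abs_of_nonneg hs.1, Real.dist_eq] at h2
      have h4 := le_abs_self (χ x - χ z)
      have h5 : (L : ℝ) * s ≤ L * h := mul_le_mul_of_nonneg_left hs.2 L.coe_nonneg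
      linarith
    have h2 : χ z ≤ ((P z).2 + 1) * ε := by
      have h3 := (Int.lt_floor_add_one (χ z / ε)).le
      rw [div_le_iff₀ hε] at h3
      exact h3
    linarith
  calc ∫⁻ x, F x ≤ ∫⁻ x, ∑' p, (B p).indicator (fun _ => c p) x := lintegral_mono hpt
    _ = ∑' p, ∫⁻ x, (B p).indicator (fun _ => c p) x := by
        rw [lintegral_tsum]
        intro p
        exact (measurable_const.indicator (hBm p)).aemeasurable
    _ = ∑' p, c p * volume (B p) := by
        congr 1
        ext p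
        rw [lintegral_indicator_const (hBm p)]
    _ ≤ ∑' p, ENNReal.ofReal (ε + h) *
          ∫⁻ x in A ∩ P ⁻¹' {p}, ENNReal.ofReal (χ x + (ε + L * h)) ∂(μHE[n]) := by
        refine ENNReal.tsum_le_tsum fun p => ?_
        calc c p * volume (B p)
            ≤ c p * (ENNReal.ofReal (ε + h) * μHE[n] (A ∩ P ⁻¹' {p})) := by
              gcongr
              exact hBv p
          _ = ENNReal.ofReal (ε + h) * ∫⁻ x in A ∩ P ⁻¹' {p}, c p ∂(μHE[n]) := by
              rw [setLIntegral_const]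
              ring
          _ ≤ _ := by
              refine mul_le_mul' le_rfl
                (setLIntegral_mono' (hA.inter (hPm (measurableSet_singleton p))) ?_)
              rintro x ⟨-, hx⟩
              refine ENNReal.ofReal_le_ofReal ?_
              have h1 : ⌊χ x / ε⌋ = p.2 := congrArg Prod.snd hx
              have h2 := Int.floor_le (χ x / ε)
              rw [h1, le_div_iff₀ hε] at h2
              linarith
    _ = ENNReal.ofReal (ε + h) *
          ∑' p, ∫⁻ x in A ∩ P ⁻¹' {p}, ENNReal.ofReal (χ x + (ε + L * h)) ∂(μHE[n]) :=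
        ENNReal.tsum_mul_left
    _ = _ := by
        rw [← lintegral_iUnion]
        · congr 3
          ext x
          simp
        · exact fun p => hA.inter (hPm (measurableSet_singleton p))
        · intro p q hpq
          refine Set.disjoint_left.2 ?_
          rintro x ⟨-, hx⟩ ⟨-, hy⟩
          exact hpq ((mem_singleton_iff.1 hx).symm.trans (mem_singleton_iff.1 hy))

/-- A segment joining a point of `S` to a point outside `S` meets the frontier of `S`. -/
lemma exists_frontier {E : Type*} [NormedAddCommGroup E] [NormedSpace ℝ E]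
    (S : Set E) (x e : E) (h : ℝ) (hh : 0 ≤ h)
    (hx : ¬ (x ∈ S ↔ x - h • e ∈ S)) : ∃ s ∈ Icc (0 : ℝ) h, x - s • e ∈ frontier S := by
  by_contra hcon
  push Not at hcon
  have hcont : Continuous fun s : ℝ => x - s • e := by fun_prop
  have hpre : IsPreconnected ((fun s : ℝ => x - s • e) '' Icc 0 h) :=
    isPreconnected_Icc.image _ hcont.continuousOn
  have h0 : x ∈ (fun s : ℝ => x - s • e) '' Icc 0 h := ⟨0, ⟨le_rfl, hh⟩, by simp⟩
  have h1 : x - h • e ∈ (fun s : ℝ => x - s • e) '' Icc 0 h := ⟨h, ⟨hh, le_rfl⟩, rfl⟩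
  have hsub : (fun s : ℝ => x - s • e) '' Icc 0 h ⊆ interior S ∪ interior Sᶜ := by
    rintro _ ⟨s, hs, rfl⟩
    have := hcon s hs
    rw [frontier_eq_closure_inter_closure] at this
    by_cases hc : x - s • e ∈ closure Sᶜ
    · right
      rw [interior_compl]
      intro h2
      exact this ⟨h2, hc⟩
    · left
      rw [interior_eq_compl_closure_compl]
      exact hc
  have hdisj : (interior S ∩ interior Sᶜ) = ∅ := by
    ext y
    simp only [mem_inter_iff, mem_empty_iff_false, iff_false, not_and]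
    intro h2 h3
    exact (interior_subset h3) (interior_subset h2)
  have hmem : ∀ y ∈ (fun s : ℝ => x - s • e) '' Icc 0 h,
      (y ∈ S → y ∈ interior S) ∧ (y ∉ S → y ∈ interior Sᶜ) := by
    intro y hy
    rcases hsub hy with h2 | h2
    · exact ⟨fun _ => h2, fun h3 => absurd (interior_subset h2) h3⟩
    · exact ⟨fun h3 => absurd h3 (interior_subset h2), fun _ => h2⟩
  have key := hpre (interior S) (interior Sᶜ) isOpen_interior isOpen_interior hsub
  by_cases hxS : x ∈ S
  · have hyS : x - h • e ∉ S := fun h2 => hx ⟨fun _ => h2, fun _ => hxS⟩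
    obtain ⟨y, -, hy⟩ := key ⟨x, h0, (hmem x h0).1 hxS⟩ ⟨_, h1, (hmem _ h1).2 hyS⟩
    rw [hdisj] at hy
    exact hy
  · have hyS : x - h • e ∈ S := by
      by_contra h2
      exact hx ⟨fun h3 => absurd h3 hxS, fun h3 => absurd h3 h2⟩
    obtain ⟨y, -, hy⟩ := key ⟨_, h1, (hmem _ h1).1 hyS⟩ ⟨x, h0, (hmem x h0).2 hxS⟩
    rw [hdisj] at hy
    exact hy

/-- Discrete version of the bound. -/
lemma discrete {n : ℕ} (e : EuclideanSpace ℝ (Fin (n + 1))) (he : ‖e‖ = 1)
    (S U : Set (EuclideanSpace ℝ (Fin (n + 1)))) (hS : MeasurableSet S) (hU : IsOpen U)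
    (χ : EuclideanSpace ℝ (Fin (n + 1)) → ℝ) (h0 : ∀ x, 0 ≤ χ x)
    (L : ℝ≥0) (hL : LipschitzWith L χ) (hc : HasCompactSupport χ)
    (h : ℝ) (hh : 0 < h) (hsub : Metric.cthickening h (tsupport χ) ⊆ U) (ε : ℝ) (hε : 0 < ε) :
    ENNReal.ofReal |(∫ x in S, (χ (x + h • e) - χ x))| ≤ ENNReal.ofReal (ε + h) *
      ∫⁻ x in U ∩ frontier S, ENNReal.ofReal (χ x + (ε + L * h)) ∂(μHE[n]) := by
  have hχc : Continuous χ := hL.continuous
  have hχi : Integrable χ := hχc.integrable_of_hasCompactSupport hc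
  have hχi' : Integrable (fun x => χ (x + h • e)) := hχi.comp_add_right (h • e)
  have e1 : ∫ x in S, (χ (x + h • e) - χ x)
      = ∫ x, (S.indicator (fun _ => (1 : ℝ)) (x - h • e) - S.indicator (fun _ => (1 : ℝ)) x) * χ x := by
    rw [integral_sub hχi'.integrableOn hχi.integrableOn]
    have e2 : ∫ x in S, χ (x + h • e) = ∫ x, S.indicator (fun _ => (1 : ℝ)) (x - h • e) * χ x := by
      rw [← integral_indicator hS,
        ← integral_add_right_eq_self (μ := volume)
          (fun x => S.indicator (fun _ => (1 : ℝ)) (x - h • e) * χ x) (h • e)]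
      congr 1
      ext x
      by_cases hx : x ∈ S <;> simp [hx]
    have e3 : ∫ x in S, χ x = ∫ x, S.indicator (fun _ => (1 : ℝ)) x * χ x := by
      rw [← integral_indicator hS]
      congr 1
      ext x
      by_cases hx : x ∈ S <;> simp [hx]
    rw [e2, e3, ← integral_sub]
    · congr 1
      ext x
      ring
    · refine hχi.bdd_mul (c := 1) ?_ ?_
      · exact ((measurable_const.indicator hS).comp (measurable_id.sub_const _)).aestronglyMeasurable
      · filter_upwards with x
        by_cases hx : x - h • e ∈ S <;> simp [hx]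
    · refine hχi.bdd_mul (c := 1) ?_ ?_
      · exact (measurable_const.indicator hS).aestronglyMeasurable
      · filter_upwards with x
        by_cases hx : x ∈ S <;> simp [hx]
  rw [e1]
  set G : EuclideanSpace ℝ (Fin (n + 1)) → ℝ := fun x =>
    (S.indicator (fun _ => (1 : ℝ)) (x - h • e) - S.indicator (fun _ => (1 : ℝ)) x) * χ x with hG
  have hGb : ENNReal.ofReal |∫ x, G x| ≤ ∫⁻ x, ENNReal.ofReal |G x| := by
    have h1 := enorm_integral_le_lintegral_enorm (μ := volume) G
    simpa only [← ofReal_norm, Real.norm_eq_abs] using h1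
  refine hGb.trans ?_
  refine key e he ε h hε _ (hU.measurableSet.inter isClosed_frontier.measurableSet) χ L hL
    (fun x => ENNReal.ofReal |G x|) ?_ ?_
  · intro x
    refine ENNReal.ofReal_le_ofReal ?_
    rw [hG, abs_mul, abs_of_nonneg (h0 x)]
    have h1 : |S.indicator (fun _ => (1 : ℝ)) (x - h • e) - S.indicator (fun _ => (1 : ℝ)) x| ≤ 1 := by
      by_cases hx : x ∈ S <;> by_cases hy : x - h • e ∈ S <;> simp [hx, hy]
    calc _ ≤ 1 * χ x := mul_le_mul_of_nonneg_right h1 (h0 x)
      _ = χ x := one_mul _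
  · intro x hx
    have hGx : G x ≠ 0 := by
      intro h1
      apply hx
      simp [h1]
    have hχx : χ x ≠ 0 := fun h1 => hGx (by simp [hG, h1])
    have hiff : ¬ (x ∈ S ↔ x - h • e ∈ S) := by
      intro h1
      apply hGx
      by_cases hx : x ∈ S
      · have hy := h1.1 hx
        simp [hG, hx, hy]
      · have hy : x - h • e ∉ S := fun h2 => hx (h1.2 h2)
        simp [hG, hx, hy]
    obtain ⟨s, hs, hsf⟩ := exists_frontier S x e h hh.le hiff
    refine ⟨s, hs, ?_, hsf⟩
    apply hsub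
    refine Metric.mem_cthickening_of_dist_le _ x _ _ (subset_tsupport χ hχx) ?_
    rw [dist_eq_norm]
    simpa [norm_smul, he, abs_of_nonneg hs.1] using hs.2

/-- **Main bound.**  The distributional derivative of `1_S` in direction `e` is controlled by the
Hausdorff measure of the topological boundary of `S`. -/
theorem ofReal_abs_integral_le {n : ℕ} (e : EuclideanSpace ℝ (Fin (n + 1))) (he : ‖e‖ = 1)
    (S U : Set (EuclideanSpace ℝ (Fin (n + 1)))) (hS : MeasurableSet S) (hU : IsOpen U)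
    (χ : EuclideanSpace ℝ (Fin (n + 1)) → ℝ) (h0 : ∀ x, 0 ≤ χ x)
    (hχ : ContDiff ℝ 1 χ) (hc : HasCompactSupport χ) (hsub : tsupport χ ⊆ U)
    (hfin : μHE[n] (U ∩ frontier S) ≠ ∞) :
    ENNReal.ofReal |∫ x in S, fderiv ℝ χ x e| ≤
      ∫⁻ x in U ∩ frontier S, ENNReal.ofReal (χ x) ∂(μHE[n]) := by
  obtain ⟨L, hL⟩ := ContDiff.lipschitzWith_of_hasCompactSupport hc hχ (by simp)
  obtain ⟨δ, hδ, hδU⟩ := hc.isCompact.exists_cthickening_subset_open hU hsub
  set μA : Measure (EuclideanSpace ℝ (Fin (n + 1))) := (μHE[n]).restrict (U ∩ frontier S) with hμA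
  -- the limit of the left-hand sides
  have hlim : Tendsto (fun h : ℝ => ∫ x in S, h⁻¹ • (χ (x + h • e) - χ x)) (𝓝[>] 0)
      (𝓝 (∫ x in S, fderiv ℝ χ x e)) := by
    refine tendsto_integral_filter_of_dominated_convergence
      ((Metric.cthickening δ (tsupport χ)).indicator (fun _ => (L : ℝ))) ?_ ?_ ?_ ?_
    · filter_upwards with h
      have : Continuous fun x => h⁻¹ • (χ (x + h • e) - χ x) := by
        have := hL.continuous
        fun_prop
      exact this.aestronglyMeasurable
    · have : ∀ᶠ h : ℝ in 𝓝[>] 0, h ∈ Ioo 0 δ := Ioo_mem_nhdsGT hδ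
      filter_upwards [this] with h hh
      filter_upwards with x
      by_cases hx : x ∈ Metric.cthickening δ (tsupport χ)
      · rw [indicator_of_mem hx, norm_smul, norm_inv, Real.norm_of_nonneg hh.1.le,
          inv_mul_le_iff₀ hh.1, ← dist_eq_norm]
        refine (hL.dist_le_mul _ _).trans ?_
        rw [dist_eq_norm]
        simp only [add_sub_cancel_left, norm_smul, he, mul_one, Real.norm_of_nonneg hh.1.le]
        rw [mul_comm]
      · have h1 : χ x = 0 := by
          by_contra h2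
          exact hx (Metric.self_subset_cthickening _ (subset_tsupport χ h2))
        have h2 : χ (x + h • e) = 0 := by
          by_contra h2
          apply hx
          refine Metric.mem_cthickening_of_dist_le _ (x + h • e) _ _ (subset_tsupport χ h2) ?_
          rw [dist_eq_norm]
          simp [norm_smul, he, abs_of_nonneg hh.1.le, hh.2.le]
        simp [h1, h2, hx]
    · refine Integrable.integrableOn ?_
      rw [integrable_indicator_iff Metric.isClosed_cthickening.measurableSet]
      refine (integrableOn_const ?_)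
      exact (hc.isCompact.cthickening.measure_lt_top).ne
    · filter_upwards with x
      have h1 : HasFDerivAt χ (fderiv ℝ χ x) x :=
        (hχ.differentiable (by simp)).differentiableAt.hasFDerivAt
      exact h1.hasLineDerivAt e |>.tendsto_slope_zero_right
  have hlim' : Tendsto (fun h : ℝ => ENNReal.ofReal |∫ x in S, h⁻¹ • (χ (x + h • e) - χ x)|)
      (𝓝[>] 0) (𝓝 (ENNReal.ofReal |∫ x in S, fderiv ℝ χ x e|)) :=
    (ENNReal.continuous_ofReal.tendsto _).comp ((continuous_abs.tendsto _).comp hlim)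
  -- the bound for each `h`
  set I : ℝ≥0∞ := ∫⁻ x, ENNReal.ofReal (χ x) ∂μA with hI
  have hbd : ∀ᶠ h : ℝ in 𝓝[>] 0, ENNReal.ofReal |∫ x in S, h⁻¹ • (χ (x + h • e) - χ x)| ≤
      ENNReal.ofReal (h + 1) * (I + ENNReal.ofReal (h ^ 2 + L * h) * μA univ) := by
    have : ∀ᶠ h : ℝ in 𝓝[>] 0, h ∈ Ioo 0 δ := Ioo_mem_nhdsGT hδ
    filter_upwards [this] with h hh
    have hh0 : 0 < h := hh.1
    have h1 := discrete e he S U hS hU χ h0 L hL hc h hh0
      ((Metric.cthickening_mono hh.2.le _).trans hδU) (h ^ 2) (by positivity)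
    have h2 : ∫ x in S, h⁻¹ • (χ (x + h • e) - χ x) = h⁻¹ * ∫ x in S, (χ (x + h • e) - χ x) := by
      simp only [smul_eq_mul]
      rw [integral_const_mul]
    rw [h2, abs_mul, ENNReal.ofReal_mul (abs_nonneg _), abs_of_pos (inv_pos.2 hh0)]
    have h3 : ∫⁻ x in U ∩ frontier S, ENNReal.ofReal (χ x + (h ^ 2 + L * h)) ∂(μHE[n])
        = I + ENNReal.ofReal (h ^ 2 + L * h) * μA univ := by
      rw [hI, ← lintegral_const, ← lintegral_add_left]
      · refine lintegral_congr fun x => ?_
        rw [ENNReal.ofReal_add (h0 x) (by positivity)]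
      · exact ENNReal.measurable_ofReal.comp hL.continuous.measurable
    rw [h3] at h1
    calc ENNReal.ofReal h⁻¹ * ENNReal.ofReal |∫ x in S, (χ (x + h • e) - χ x)|
        ≤ ENNReal.ofReal h⁻¹ * (ENNReal.ofReal (h ^ 2 + h) *
          (I + ENNReal.ofReal (h ^ 2 + L * h) * μA univ)) := mul_le_mul' le_rfl h1
      _ = ENNReal.ofReal (h + 1) * (I + ENNReal.ofReal (h ^ 2 + L * h) * μA univ) := by
        rw [← mul_assoc, ← ENNReal.ofReal_mul (by positivity)]
        congr 2
        field_simp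
  have hμA : μA univ ≠ ∞ := by
    rw [hμA, Measure.restrict_apply_univ]
    exact hfin
  have hrhs : Tendsto (fun h : ℝ => ENNReal.ofReal (h + 1) *
      (I + ENNReal.ofReal (h ^ 2 + L * h) * μA univ)) (𝓝[>] 0) (𝓝 I) := by
    have h1 : Tendsto (fun h : ℝ => ENNReal.ofReal (h + 1)) (𝓝[>] 0) (𝓝 1) := by
      have : Tendsto (fun h : ℝ => ENNReal.ofReal (h + 1)) (𝓝 0) (𝓝 (ENNReal.ofReal (0 + 1))) := by
        apply Continuous.tendsto
        exact ENNReal.continuous_ofReal.comp (by fun_prop)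
      simp only [zero_add, ENNReal.ofReal_one] at this
      exact this.mono_left nhdsWithin_le_nhds
    have h2 : Tendsto (fun h : ℝ => ENNReal.ofReal (h ^ 2 + L * h)) (𝓝[>] 0) (𝓝 0) := by
      have : Tendsto (fun h : ℝ => ENNReal.ofReal (h ^ 2 + L * h)) (𝓝 0)
          (𝓝 (ENNReal.ofReal (0 ^ 2 + L * 0))) := by
        apply Continuous.tendsto
        exact ENNReal.continuous_ofReal.comp (by fun_prop)
      simp at this
      exact this.mono_left nhdsWithin_le_nhds
    have h3 : Tendsto (fun h : ℝ => ENNReal.ofReal (h ^ 2 + L * h) * μA univ) (𝓝[>] 0)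
        (𝓝 (0 * μA univ)) := ENNReal.Tendsto.mul_const h2 (Or.inr hμA)
    have h4 : Tendsto (fun h : ℝ => I + ENNReal.ofReal (h ^ 2 + L * h) * μA univ) (𝓝[>] 0)
        (𝓝 (I + 0 * μA univ)) := tendsto_const_nhds.add h3
    have h5 := ENNReal.Tendsto.mul h1 (Or.inl one_ne_zero) h4 (Or.inr (by simp))
    simpa using h5
  exact le_of_tendsto_of_tendsto hlim' hrhs hbd

/-- The version for an arbitrary direction. -/
theorem ofReal_abs_integral_le' {n : ℕ} (v : EuclideanSpace ℝ (Fin (n + 1)))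
    (S U : Set (EuclideanSpace ℝ (Fin (n + 1)))) (hS : MeasurableSet S) (hU : IsOpen U)
    (χ : EuclideanSpace ℝ (Fin (n + 1)) → ℝ) (h0 : ∀ x, 0 ≤ χ x)
    (hχ : ContDiff ℝ 1 χ) (hc : HasCompactSupport χ) (hsub : tsupport χ ⊆ U)
    (hfin : μHE[n] (U ∩ frontier S) ≠ ∞) :
    ENNReal.ofReal |∫ x in S, fderiv ℝ χ x v| ≤
      ENNReal.ofReal ‖v‖ * ∫⁻ x in U ∩ frontier S, ENNReal.ofReal (χ x) ∂(μHE[n]) := by
  by_cases hv : v = 0
  · subst hv
    simp
  have hv' : 0 < ‖v‖ := norm_pos_iff.2 hv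
  have he : ‖(‖v‖⁻¹ • v)‖ = 1 := by
    rw [norm_smul, norm_inv, norm_norm, inv_mul_cancel₀ hv'.ne']
  have h1 := ofReal_abs_integral_le (‖v‖⁻¹ • v) he S U hS hU χ h0 hχ hc hsub hfin
  have h2 : ∫ x in S, fderiv ℝ χ x v = ‖v‖ * ∫ x in S, fderiv ℝ χ x (‖v‖⁻¹ • v) := by
    rw [← integral_const_mul]
    congr 1
    ext x
    rw [map_smul, smul_eq_mul, ← mul_assoc, mul_inv_cancel₀ hv'.ne', one_mul]
  rw [h2, abs_mul, ENNReal.ofReal_mul (abs_nonneg _), abs_of_pos hv']
  exact mul_le_mul' le_rfl h1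

/-- Mollification of the indicator function of `S`. -/
noncomputable def moll {n : ℕ} (S : Set (EuclideanSpace ℝ (Fin (n + 1))))
    (η : EuclideanSpace ℝ (Fin (n + 1)) → ℝ) (x : EuclideanSpace ℝ (Fin (n + 1))) : ℝ :=
  ∫ z in S, η (x - z)

lemma moll_eq {n : ℕ} (S : Set (EuclideanSpace ℝ (Fin (n + 1)))) (hS : MeasurableSet S)
    (η : EuclideanSpace ℝ (Fin (n + 1)) → ℝ) :
    moll S η = (convolution (S.indicator (fun _ => (1 : ℝ))) η (ContinuousLinearMap.lsmul ℝ ℝ)
      volume) := by
  funext x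
  rw [moll, convolution_lsmul, ← integral_indicator hS]
  congr 1
  ext z
  by_cases hz : z ∈ S <;> simp [hz]

lemma locallyIntegrable_ind {n : ℕ} (S : Set (EuclideanSpace ℝ (Fin (n + 1))))
    (hS : MeasurableSet S) :
    LocallyIntegrable (S.indicator (fun _ => (1 : ℝ))) volume :=
  (locallyIntegrable_const (1 : ℝ)).indicator hS

lemma moll_contDiff {n : ℕ} (S : Set (EuclideanSpace ℝ (Fin (n + 1)))) (hS : MeasurableSet S)
    (η : EuclideanSpace ℝ (Fin (n + 1)) → ℝ) (hη : ContDiff ℝ 1 η) (hc : HasCompactSupport η) :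
    ContDiff ℝ 1 (moll S η) := by
  rw [moll_eq S hS]
  exact hc.contDiff_convolution_right _ (locallyIntegrable_ind S hS) hη

lemma moll_fderiv {n : ℕ} (S : Set (EuclideanSpace ℝ (Fin (n + 1)))) (hS : MeasurableSet S)
    (η : EuclideanSpace ℝ (Fin (n + 1)) → ℝ) (hη : ContDiff ℝ 1 η) (hc : HasCompactSupport η)
    (x v : EuclideanSpace ℝ (Fin (n + 1))) :
    fderiv ℝ (moll S η) x v = ∫ z in S, fderiv ℝ η (x - z) v := by
  rw [moll_eq S hS, (hc.hasFDerivAt_convolution_right (ContinuousLinearMap.lsmul ℝ ℝ)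
    (locallyIntegrable_ind S hS) hη x).fderiv,
    convolution_precompR_apply _ (locallyIntegrable_ind S hS) (hc.fderiv ℝ)
      (hη.continuous_fderiv (by simp)), convolution_lsmul, ← integral_indicator hS]
  congr 1
  ext z
  by_cases hz : z ∈ S <;> simp [hz]

/-- Pointwise bound of the gradient of the mollified indicator function. -/
theorem moll_norm_fderiv_le {n : ℕ}
    (S U : Set (EuclideanSpace ℝ (Fin (n + 1)))) (hS : MeasurableSet S) (hU : IsOpen U)
    (η : EuclideanSpace ℝ (Fin (n + 1)) → ℝ) (h0 : ∀ x, 0 ≤ η x)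
    (hη : ContDiff ℝ 1 η) (r : ℝ) (hr : tsupport η ⊆ Metric.closedBall 0 r)
    (hfin : μHE[n] (U ∩ frontier S) ≠ ∞)
    (x : EuclideanSpace ℝ (Fin (n + 1))) (hx : Metric.closedBall x r ⊆ U) :
    ENNReal.ofReal ‖fderiv ℝ (moll S η) x‖ ≤
      ∫⁻ z in U ∩ frontier S, ENNReal.ofReal (η (x - z)) ∂(μHE[n]) := by
  have hc : HasCompactSupport η :=
    (isCompact_closedBall (0 : EuclideanSpace ℝ (Fin (n + 1))) r).of_isClosed_subset
      (isClosed_tsupport η) hr
  set χ : EuclideanSpace ℝ (Fin (n + 1)) → ℝ := fun z => η (x - z) with hχ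
  have hsupp : tsupport χ ⊆ Metric.closedBall x r := by
    refine closure_minimal ?_ Metric.isClosed_closedBall
    intro z hz
    have h1 : x - z ∈ Metric.closedBall (0 : EuclideanSpace ℝ (Fin (n + 1))) r :=
      hr (subset_tsupport η hz)
    rw [mem_closedBall_zero_iff] at h1
    rw [Metric.mem_closedBall, dist_comm, dist_eq_norm]
    exact h1
  have hcχ : HasCompactSupport χ :=
    (isCompact_closedBall x r).of_isClosed_subset (isClosed_tsupport χ) hsupp
  have hχ1 : ContDiff ℝ 1 χ := hη.comp (contDiff_const.sub contDiff_id)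
  have hder : ∀ z v, fderiv ℝ χ z v = - fderiv ℝ η (x - z) v := by
    intro z v
    have h1 : HasFDerivAt (fun z : EuclideanSpace ℝ (Fin (n + 1)) => x - z)
        (-ContinuousLinearMap.id ℝ (EuclideanSpace ℝ (Fin (n + 1)))) z := by
      simpa using (hasFDerivAt_id z).const_sub x
    have h2 : HasFDerivAt η (fderiv ℝ η (x - z)) (x - z) :=
      (hη.differentiable (by simp)).differentiableAt.hasFDerivAt
    have h3 := (h2.comp z h1).fderiv
    have h4 : χ = η ∘ fun z => x - z := rfl
    rw [h4, h3]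
    simp
  set I : ℝ≥0∞ := ∫⁻ z in U ∩ frontier S, ENNReal.ofReal (η (x - z)) ∂(μHE[n]) with hI
  have hIfin : I ≠ ∞ := by
    obtain ⟨C, hC⟩ := hc.exists_bound_of_continuous hη.continuous
    have h1 : I ≤ ∫⁻ z in U ∩ frontier S, ENNReal.ofReal C ∂(μHE[n]) := by
      refine lintegral_mono fun z => ENNReal.ofReal_le_ofReal ?_
      exact (le_abs_self _).trans (hC _)
    rw [setLIntegral_const] at h1
    exact ne_top_of_le_ne_top (ENNReal.mul_ne_top ENNReal.ofReal_ne_top hfin) h1
  have hbound : ∀ v, ‖fderiv ℝ (moll S η) x v‖ ≤ I.toReal * ‖v‖ := by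
    intro v
    have h1 := ofReal_abs_integral_le' v S U hS hU χ (fun z => h0 _) hχ1 hcχ (hsupp.trans hx) hfin
    have h2 : ∫ z in S, fderiv ℝ χ z v = - fderiv ℝ (moll S η) x v := by
      rw [moll_fderiv S hS η hη hc, ← integral_neg]
      congr 1
      ext z
      exact hder z v
    rw [h2, abs_neg] at h1
    have h3 : ENNReal.ofReal ‖v‖ * I = ENNReal.ofReal (I.toReal * ‖v‖) := by
      rw [ENNReal.ofReal_mul ENNReal.toReal_nonneg, ENNReal.ofReal_toReal hIfin, mul_comm]
    rw [← hI, h3] at h1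
    rw [Real.norm_eq_abs]
    exact (ENNReal.ofReal_le_ofReal_iff (by positivity)).1 h1
  have := ContinuousLinearMap.opNorm_le_bound _ ENNReal.toReal_nonneg hbound
  calc ENNReal.ofReal ‖fderiv ℝ (moll S η) x‖ ≤ ENNReal.ofReal I.toReal :=
        ENNReal.ofReal_le_ofReal this
    _ = I := ENNReal.ofReal_toReal hIfin

/-- Integrated bound of the gradient of the mollified indicator function. -/
theorem moll_lintegral_le {n : ℕ}
    (S U V : Set (EuclideanSpace ℝ (Fin (n + 1)))) (hS : MeasurableSet S) (hU : IsOpen U)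
    (hV : MeasurableSet V)
    (η : EuclideanSpace ℝ (Fin (n + 1)) → ℝ) (h0 : ∀ x, 0 ≤ η x)
    (hη : ContDiff ℝ 1 η) (r : ℝ) (hr : tsupport η ⊆ Metric.closedBall 0 r)
    (h1 : ∫ x, η x = 1) (hfin : μHE[n] (U ∩ frontier S) ≠ ∞)
    (hx : ∀ x ∈ V, Metric.closedBall x r ⊆ U) :
    ∫⁻ x in V, ENNReal.ofReal ‖fderiv ℝ (moll S η) x‖ ≤ μHE[n] (U ∩ frontier S) := by
  have hc : HasCompactSupport η :=
    (isCompact_closedBall (0 : EuclideanSpace ℝ (Fin (n + 1))) r).of_isClosed_subset
      (isClosed_tsupport η) hr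
  have : IsFiniteMeasure ((μHE[n] : Measure (EuclideanSpace ℝ (Fin (n + 1)))).restrict
      (U ∩ frontier S)) := ⟨by rw [Measure.restrict_apply_univ]; exact lt_top_iff_ne_top.2 hfin⟩
  calc ∫⁻ x in V, ENNReal.ofReal ‖fderiv ℝ (moll S η) x‖
      ≤ ∫⁻ x in V, ∫⁻ z in U ∩ frontier S, ENNReal.ofReal (η (x - z)) ∂(μHE[n]) := by
        refine setLIntegral_mono' hV fun x hxV => ?_
        exact moll_norm_fderiv_le S U hS hU η h0 hη r hr hfin x (hx x hxV)
    _ = ∫⁻ z in U ∩ frontier S, (∫⁻ x in V, ENNReal.ofReal (η (x - z))) ∂(μHE[n]) := by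
        have : Continuous fun p : EuclideanSpace ℝ (Fin (n + 1)) × EuclideanSpace ℝ (Fin (n + 1)) =>
            η (p.1 - p.2) := hη.continuous.comp (by fun_prop)
        exact lintegral_lintegral_swap (μ := (volume : Measure (EuclideanSpace ℝ (Fin (n + 1)))).restrict V)
          (ν := (μHE[n] : Measure (EuclideanSpace ℝ (Fin (n + 1)))).restrict (U ∩ frontier S))
          (f := fun x z => ENNReal.ofReal (η (x - z)))
          (ENNReal.measurable_ofReal.comp this.measurable).aemeasurable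
    _ ≤ ∫⁻ z in U ∩ frontier S, (1 : ℝ≥0∞) ∂(μHE[n]) := by
        refine lintegral_mono fun z => ?_
        calc ∫⁻ x in V, ENNReal.ofReal (η (x - z)) ≤ ∫⁻ x, ENNReal.ofReal (η (x - z)) :=
              setLIntegral_le_lintegral _ _
          _ = ∫⁻ x, ENNReal.ofReal (η x) :=
              lintegral_sub_right_eq_self (fun x => ENNReal.ofReal (η x)) z
          _ = 1 := by
              rw [← ofReal_integral_eq_lintegral_ofReal
                (hη.continuous.integrable_of_hasCompactSupport hc) (Eventually.of_forall h0), h1,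
                ENNReal.ofReal_one]
    _ = μHE[n] (U ∩ frontier S) := by
        rw [setLIntegral_const, one_mul]

/-- The constant relating the Hausdorff measure `μH[n]` and its normalisation `μHE[n]`. -/
noncomputable def κ (n : ℕ) : ℝ≥0 :=
  addHaarScalarFactor (volume : Measure (EuclideanSpace ℝ (Fin n))) μH[n]

lemma κ_ne_zero (n : ℕ) : κ n ≠ 0 := addHaarScalarFactor_volume_hausdorffMeasure_ne_zero n

lemma μHE_apply {X : Type*} [EMetricSpace X] [MeasurableSpace X] [BorelSpace X] (n : ℕ)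
    (s : Set X) : μHE[n] s = κ n * μH[n] s := by
  rw [euclideanHausdorffMeasure_def, Measure.smul_apply]
  rfl

lemma volume_eq (n : ℕ) (s : Set (EuclideanSpace ℝ (Fin n))) :
    volume s = κ n * μH[n] s := by
  rw [← EuclideanSpace.euclideanHausdorffMeasure_eq_volume, μHE_apply]

end Pool.H71.Bdry
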