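import Pool.Agent.H14.PLMain

/-!
# Tools for the embeddings of `Z wr Z^n` in the group of PL homeomorphisms of cubes
-/

set_option autoImplicit false

namespace Pool.Agent.H71.PLI

open Set MvPolynomial Pool.Agent.H14

/-- half-space form of the piecewise linearity -/
theorem F_PLH (b d : ℝ) (hd : 0 < d) :
    ∃ (k : ℕ) (L : Fin k → Finset (E2 →ᵃ[ℝ] ℝ)) (A : Fin k → (E2 →ᵃ[ℝ] E2)),
      (∀ x ∈ Icc (0 : E2) 1, ∃ i, ∀ f ∈ L i, 0 ≤ f x) ∧
      (∀ i, ∀ x ∈ Icc (0 : E2) 1, (∀ f ∈ L i, 0 ≤ f x) → F b d x = A i x) := by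
  classical
  obtain ⟨K, hK⟩ := lev_bound (b := b) hd
  -- the index type
  let ι := Option (Fin 4 × Fin 4 × Fin 4 × (Finset.Icc (-(K : ℤ)) K))
  let L : ι → List (E2 →ᵃ[ℝ] ℝ) := fun j => match j with
    | none => innerL
    | some (i, m, m', k) => pieceL b d i m m' k.1
  let A : ι → (E2 →ᵃ[ℝ] E2) := fun j => match j with
    | none => AffineMap.id ℝ E2
    | some (i, m, m', k) => pieceA b d i m m' k.1
  have hcover : ∀ x ∈ Icc (0 : E2) 1, ∃ j, ∀ f ∈ L j, 0 ≤ f x := by
    intro x hx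
    by_cases hY : InY x
    · obtain ⟨i, m, him⟩ := chart hY
      have him' : alpha i m x ∈ T m := him
      set p := (2 : ℝ) ^ ((i : ℕ) : ℤ) • alpha i m x with hp
      have hpX : InX p := inX_smul (two_zpow_pos _) (T_inX him')
      have hn := T_nrm him'
      have hnp1 : 1 ≤ nrm p := by
        rw [hp, nrm_smul (two_zpow_pos _)]
        have : (1 : ℝ) ≤ (2 : ℝ) ^ ((i : ℕ) : ℤ) := by
          rw [zpow_natCast]; exact one_le_pow₀ (by norm_num)
        nlinarith [hn.2.1]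
      have hnp2 : nrm p ≤ 16 := by
        rw [hp, nrm_smul (two_zpow_pos _)]
        have : (2 : ℝ) ^ ((i : ℕ) : ℤ) ≤ 8 := by
          rw [zpow_natCast]
          calc (2 : ℝ) ^ (i : ℕ) ≤ 2 ^ 3 := pow_le_pow_right₀ (by norm_num) (by omega)
            _ = 8 := by norm_num
        nlinarith [hn.2.2, hn.2.1, two_zpow_pos ((i : ℕ) : ℤ)]
      have hlev := hK p hpX.1 hnp1 hnp2
      obtain ⟨m', hm'⟩ := exists_mem_T (act_inX (b := b) hd hpX)
      refine ⟨some (i, m, m', ⟨lev (act b d p), Finset.mem_Icc.2 hlev⟩), ?_⟩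
      refine (mem_pieceL b d i m m' _ x).2 ⟨hx, him', ?_⟩
      rw [beta_apply]
      exact hm'
    · refine ⟨none, ?_⟩
      refine (mem_innerL x).2 ?_
      obtain ⟨h1, h2⟩ := hx
      have a0 : (0 : ℝ) ≤ x 0 := h1 0
      have a1 : (0 : ℝ) ≤ x 1 := h1 1
      have b0 : x 0 ≤ (1 : ℝ) := h2 0
      have b1 : x 1 ≤ (1 : ℝ) := h2 1
      have : ¬ (x 0 ≤ 1/3 ∨ 2/3 ≤ x 0 ∨ x 1 ≤ 1/3 ∨ 2/3 ≤ x 1) := fun h =>
        hY ⟨⟨a0, b0, a1, b1⟩, h⟩
      push Not at this
      obtain ⟨c1, c2, c3, c4⟩ := this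
      exact ⟨c1.le, c2.le, c3.le, c4.le⟩
  have hagree : ∀ j, ∀ x ∈ Icc (0 : E2) 1, (∀ f ∈ L j, 0 ≤ f x) → F b d x = A j x := by
    intro j x hx hxj
    rcases j with _ | ⟨i, m, m', k⟩
    · exact F_inC hd ((mem_innerL x).1 hxj)
    · obtain ⟨-, h1, h2⟩ := (mem_pieceL b d i m m' k.1 x).1 hxj
      exact piece_eq hd h1 h2
  let e := Fintype.equivFin ι
  refine ⟨Fintype.card ι, fun n => (L (e.symm n)).toFinset, fun n => A (e.symm n), ?_, ?_⟩
  · intro x hx
    obtain ⟨j, hj⟩ := hcover x hx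
    refine ⟨e j, fun f hf => ?_⟩
    have hf' : f ∈ L (e.symm (e j)) := List.mem_toFinset.1 hf
    rw [e.symm_apply_apply] at hf'
    exact hj f hf'
  · intro n x hx hxn
    refine hagree _ x hx fun f hf => hxn f ?_
    exact List.mem_toFinset.2 hf

/-- There are algebraically independent families of reals of any finite length. -/
theorem exists_algInd (n : ℕ) : ∃ x : Fin n → ℝ, AlgebraicIndependent ℚ x := by
  obtain ⟨s, hs⟩ := exists_isTranscendenceBasis ℚ ℝ
  have hinf : Infinite s := by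
    by_contra hfin
    rw [not_infinite_iff_finite] at hfin
    have halg := hs.isAlgebraic
    have hc : Countable (MvPolynomial s ℚ) := by
      have : Countable s := inferInstance
      rw [← Cardinal.mk_le_aleph0_iff]
      refine (MvPolynomial.cardinalMk_le_max).trans ?_
      simp only [sup_le_iff]
      refine ⟨⟨?_, ?_⟩, le_refl _⟩
      · exact Cardinal.mk_le_aleph0
      · exact Cardinal.mk_le_aleph0
    have hc2 : Countable (Algebra.adjoin ℚ (range ((↑) : s → ℝ))) := by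
      rw [Algebra.adjoin_range_eq_range_aeval]
      exact (countable_range (MvPolynomial.aeval (R := ℚ) ((↑) : s → ℝ))).to_subtype
    have h1 := Algebra.IsAlgebraic.cardinalMk_le_max (Algebra.adjoin ℚ (range ((↑) : s → ℝ))) ℝ
    have h2 : Cardinal.mk ℝ ≤ Cardinal.aleph0 := by
      refine h1.trans ?_
      simp only [sup_le_iff]
      exact ⟨Cardinal.mk_le_aleph0, le_refl _⟩
    rw [Cardinal.mk_real] at h2
    exact absurd h2 (not_le.2 Cardinal.aleph0_lt_continuum)
  let e : Fin n ↪ s := (Fin.valEmbedding).trans (Infinite.natEmbedding s)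
  exact ⟨((↑) : s → ℝ) ∘ e, hs.1.comp e e.injective⟩

/-- Exponential form of algebraic independence. -/
theorem exists_exps (n : ℕ) : ∃ s : Fin n → ℝ, ∀ c : (Fin n → ℤ) →₀ ℤ,
    (c.sum fun v k => (k : ℝ) * Real.exp (∑ i, (v i : ℝ) * s i)) = 0 → c = 0 := by
  classical
  obtain ⟨x, hx⟩ := exists_algInd n
  have hx0 : ∀ i, x i ≠ 0 := fun i => hx.ne_zero i
  have hpos : ∀ i, 0 < (x i) ^ 2 := fun i => by positivity [hx0 i]
  refine ⟨fun i => Real.log ((x i) ^ 2), fun c hsum => ?_⟩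
  -- common shift
  obtain ⟨M, hM⟩ : ∃ M : ℕ, ∀ v ∈ c.support, ∀ i, -(M : ℤ) ≤ v i := by
    refine ⟨∑ v ∈ c.support, ∑ i, (v i).natAbs, fun v hv i => ?_⟩
    have h1 : (v i).natAbs ≤ ∑ v ∈ c.support, ∑ i, (v i).natAbs := by
      refine le_trans ?_ (Finset.single_le_sum (f := fun v : Fin n → ℤ => ∑ i, (v i).natAbs)
        (fun _ _ => Nat.zero_le _) hv)
      exact Finset.single_le_sum (f := fun i => (v i).natAbs) (fun _ _ => Nat.zero_le _)
        (Finset.mem_univ i)
    have h2 : (((v i).natAbs : ℕ) : ℤ) ≤ ((∑ v ∈ c.support, ∑ i, (v i).natAbs : ℕ) : ℤ) := by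
      exact_mod_cast h1
    have h3 : -(((v i).natAbs : ℕ) : ℤ) ≤ v i := by omega
    omega
  let ex : (Fin n → ℤ) → (Fin n →₀ ℕ) := fun v => Finsupp.equivFunOnFinite.symm
    (fun i => 2 * ((M : ℤ) + v i).toNat)
  have hexp : ∀ v ∈ c.support, Real.exp (∑ i, (v i : ℝ) * Real.log ((x i) ^ 2)) *
      (∏ i, (x i) ^ (2 * M)) = ∏ i, (x i) ^ (ex v i) := by
    intro v hv
    rw [Real.exp_sum, ← Finset.prod_mul_distrib]
    refine Finset.prod_congr rfl fun i _ => ?_
    have h1 : ex v i = 2 * ((M : ℤ) + v i).toNat := rfl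
    rw [h1, pow_mul, pow_mul]
    have h2 : Real.exp ((v i : ℝ) * Real.log ((x i) ^ 2)) = ((x i) ^ 2) ^ (v i) := by
      rw [← Real.rpow_intCast, Real.rpow_def_of_pos (hpos i)]
      congr 1
      ring
    rw [h2]
    have hy := hpos i
    generalize x i ^ 2 = y at hy ⊢
    rw [← zpow_natCast y, ← zpow_natCast y, ← zpow_add₀ hy.ne']
    congr 1
    rw [Int.toNat_of_nonneg (by have := hM v hv i; omega)]
    ring
  let Q : MvPolynomial (Fin n) ℚ := ∑ v ∈ c.support, monomial (ex v) (c v : ℚ)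
  have hQ : aeval x Q = 0 := by
    have h1 : aeval x Q = (c.sum fun v k => (k : ℝ) *
        Real.exp (∑ i, (v i : ℝ) * Real.log ((x i) ^ 2))) * (∏ i, (x i) ^ (2 * M)) := by
      rw [Finsupp.sum, Finset.sum_mul]
      simp only [Q]
      rw [map_sum]
      refine Finset.sum_congr rfl fun v hv => ?_
      rw [aeval_monomial, mul_assoc, hexp v hv]
      congr 1
      rw [Finsupp.prod_fintype _ _ (by simp)]
    rw [h1, hsum, zero_mul]
  have hQ0 : Q = 0 := by
    have := hx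
    rw [algebraicIndependent_iff] at this
    exact this Q hQ
  have hinj : ∀ v ∈ c.support, ∀ w ∈ c.support, ex v = ex w → v = w := by
    intro v hv w hw h
    funext i
    have h1 := DFunLike.congr_fun h i
    have h2 : 2 * ((M : ℤ) + v i).toNat = 2 * ((M : ℤ) + w i).toNat := h1
    have h3 := hM v hv i
    have h4 := hM w hw i
    omega
  ext v
  by_contra hv
  have hv' : v ∈ c.support := Finsupp.mem_support_iff.2 hv
  have hcoef : coeff (ex v) Q = (c v : ℚ) := by
    simp only [Q]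
    rw [coeff_sum, Finset.sum_eq_single v]
    · rw [coeff_monomial, if_pos rfl]
    · intro w hw hwv
      rw [coeff_monomial, if_neg fun h => hwv (hinj w hw v hv' h)]
    · intro h
      exact absurd hv' h
  rw [hQ0, coeff_zero] at hcoef
  exact hv (by exact_mod_cast hcoef.symm)

end Pool.Agent.H71.PLI
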