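import Pool.Agent.H71.PLI

/-!
# The maps of the cube
-/

set_option autoImplicit false

namespace Pool.Agent.H71.PLI

open Set Pool.Agent.H14

/-- The cube `[0,1]^(2+k)`. -/
abbrev C2 (k : ℕ) : Type := Icc (0 : Fin (2 + k) → ℝ) 1

theorem continuous_of_pieces {m : ℕ} {g : Icc (0 : Fin m → ℝ) 1 → Icc (0 : Fin m → ℝ) 1} {k : ℕ}
    (L : Fin k → Finset ((Fin m → ℝ) →ᵃ[ℝ] ℝ)) (A : Fin k → ((Fin m → ℝ) →ᵃ[ℝ] (Fin m → ℝ)))
    (h1 : ∀ x : Icc (0 : Fin m → ℝ) 1, ∃ i, ∀ l ∈ L i, 0 ≤ l x.1)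
    (h2 : ∀ i, ∀ x : Icc (0 : Fin m → ℝ) 1, (∀ l ∈ L i, 0 ≤ l x.1) → (g x).1 = A i x.1) :
    Continuous g := by
  rw [continuous_induced_rng]
  let C : Fin k → Set (Icc (0 : Fin m → ℝ) 1) := fun i => {x | ∀ l ∈ L i, 0 ≤ l x.1}
  have hC : ∀ i, IsClosed (C i) := by
    intro i
    have : C i = ⋂ l ∈ L i, {x : Icc (0 : Fin m → ℝ) 1 | 0 ≤ l x.1} := by
      ext x; simp [C]
    rw [this]
    exact isClosed_biInter fun l _ => isClosed_le continuous_const
      (l.continuous_of_finiteDimensional.comp continuous_subtype_val)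
  have hU : (⋃ i, C i) = univ := by
    ext x
    simp only [mem_iUnion, mem_univ, iff_true]
    exact h1 x
  refine (locallyFinite_of_finite C).continuous hU hC fun i => ?_
  have : ContinuousOn (fun x : Icc (0 : Fin m → ℝ) 1 => A i x.1) (C i) :=
    ((A i).continuous_of_finiteDimensional.comp continuous_subtype_val).continuousOn
  exact this.congr fun x hx => h2 i x hx

/-- The maps of the square acting on the first two coordinates of the cube. -/
noncomputable def Gf {k : ℕ} (b s : ℝ) (x : C2 k) : C2 k :=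
  ⟨Fin.append (F b (Real.exp s) (fun i => x.1 (Fin.castAdd k i))) (fun j => x.1 (Fin.natAdd 2 j)), by
    have hx : (fun i : Fin 2 => x.1 (Fin.castAdd k i)) ∈ Icc (0 : E2) 1 :=
      ⟨fun i => x.2.1 _, fun i => x.2.2 _⟩
    have h := F_cube (b := b) (Real.exp_pos s) hx
    constructor
    · intro i
      refine Fin.addCases (fun j => ?_) (fun j => ?_) i
      · rw [Fin.append_left]; exact h.1 j
      · rw [Fin.append_right]; exact x.2.1 _
    · intro i
      refine Fin.addCases (fun j => ?_) (fun j => ?_) i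
      · rw [Fin.append_left]; exact h.2 j
      · rw [Fin.append_right]; exact x.2.2 _⟩

theorem Gf_val {k : ℕ} (b s : ℝ) (x : C2 k) : (Gf b s x).1 =
    Fin.append (F b (Real.exp s) (fun i => x.1 (Fin.castAdd k i))) (fun j => x.1 (Fin.natAdd 2 j)) := by
  unfold Gf
  rfl

theorem Gf_left {k : ℕ} (b s : ℝ) (x : C2 k) :
    (fun i : Fin 2 => (Gf b s x).1 (Fin.castAdd k i)) =
      F b (Real.exp s) (fun i => x.1 (Fin.castAdd k i)) := by
  funext i
  rw [Gf_val]
  exact Fin.append_left _ _ i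

theorem Gf_right {k : ℕ} (b s : ℝ) (x : C2 k) (j : Fin k) :
    (Gf b s x).1 (Fin.natAdd 2 j) = x.1 (Fin.natAdd 2 j) := by
  rw [Gf_val]
  exact Fin.append_right _ _ j

theorem cube_ext {k : ℕ} {x y : C2 k}
    (h1 : (fun i : Fin 2 => x.1 (Fin.castAdd k i)) = fun i => y.1 (Fin.castAdd k i))
    (h2 : ∀ j : Fin k, x.1 (Fin.natAdd 2 j) = y.1 (Fin.natAdd 2 j)) : x = y := by
  apply Subtype.ext
  funext i
  refine Fin.addCases (fun j => ?_) (fun j => ?_) i
  · exact congrFun h1 j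
  · exact h2 j

theorem Gf_Gf {k : ℕ} (b s b' s' : ℝ) (x : C2 k) :
    Gf b s (Gf b' s' x) = Gf (b' + b * Real.exp s') (s + s') x := by
  apply cube_ext
  · rw [Gf_left, Gf_left, Gf_left, F_F (Real.exp_pos _) (Real.exp_pos _), Real.exp_add]
  · intro j
    rw [Gf_right, Gf_right, Gf_right]

theorem Gf_zero {k : ℕ} (x : C2 k) : Gf 0 0 x = x := by
  apply cube_ext
  · rw [Gf_left, Real.exp_zero, F_id]
  · intro j
    rw [Gf_right]

/-- appending as a linear map -/
def appendL (k : ℕ) : ((Fin 2 → ℝ) × (Fin k → ℝ)) →ₗ[ℝ] (Fin (2 + k) → ℝ) where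
  toFun p := Fin.append p.1 p.2
  map_add' p q := by
    funext i
    refine Fin.addCases (fun j => ?_) (fun j => ?_) i
    · simp
    · simp
  map_smul' c p := by
    funext i
    refine Fin.addCases (fun j => ?_) (fun j => ?_) i
    · simp
    · simp

theorem Gf_pieces {k : ℕ} (b s : ℝ) : Continuous (Gf (k := k) b s) ∧
    ∃ (K : ℕ) (L : Fin K → Finset ((Fin (2 + k) → ℝ) →ᵃ[ℝ] ℝ))
      (A : Fin K → ((Fin (2 + k) → ℝ) →ᵃ[ℝ] (Fin (2 + k) → ℝ))),
      (∀ x : C2 k, ∃ i, ∀ l ∈ L i, 0 ≤ l x.1) ∧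
      ∀ i, ∀ x : C2 k, (∀ l ∈ L i, 0 ≤ l x.1) → (Gf b s x).1 = A i x.1 := by
  classical
  obtain ⟨K, L, A, h1, h2⟩ := F_PLH b (Real.exp s) (Real.exp_pos s)
  let ρ : (Fin (2 + k) → ℝ) →ᵃ[ℝ] (Fin 2 → ℝ) :=
    (LinearMap.funLeft ℝ ℝ (Fin.castAdd k : Fin 2 → Fin (2 + k))).toAffineMap
  let ρ' : (Fin (2 + k) → ℝ) →ᵃ[ℝ] (Fin k → ℝ) :=
    (LinearMap.funLeft ℝ ℝ (Fin.natAdd 2 : Fin k → Fin (2 + k))).toAffineMap
  have hA : ∀ x : C2 k, ∃ i, ∀ l ∈ (L i).image (fun l => l.comp ρ), 0 ≤ l x.1 := by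
    intro x
    have hx : (fun i : Fin 2 => x.1 (Fin.castAdd k i)) ∈ Icc (0 : E2) 1 :=
      ⟨fun i => x.2.1 _, fun i => x.2.2 _⟩
    obtain ⟨i, hi⟩ := h1 _ hx
    refine ⟨i, fun l hl => ?_⟩
    obtain ⟨l', hl', rfl⟩ := Finset.mem_image.1 hl
    exact hi l' hl'
  have hB : ∀ i, ∀ x : C2 k, (∀ l ∈ (L i).image (fun l => l.comp ρ), 0 ≤ l x.1) →
      (Gf b s x).1 = (appendL k).toAffineMap.comp (((A i).comp ρ).prod ρ') x.1 := by
    intro i x hi
    have hx : (fun i : Fin 2 => x.1 (Fin.castAdd k i)) ∈ Icc (0 : E2) 1 :=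
      ⟨fun i => x.2.1 _, fun i => x.2.2 _⟩
    have e := h2 i _ hx fun l hl => hi (l.comp ρ) (Finset.mem_image_of_mem _ hl)
    rw [Gf_val, e]
    rfl
  exact ⟨continuous_of_pieces _ _ hA hB, K, _, _, hA, hB⟩

/-- The homeomorphisms of the cube. -/
noncomputable def G {k : ℕ} (b s : ℝ) : Equiv.Perm (C2 k) where
  toFun := Gf b s
  invFun := Gf (-b * Real.exp (-s)) (-s)
  left_inv := by
    intro x
    rw [Gf_Gf, neg_add_cancel, mul_assoc, ← Real.exp_add, neg_add_cancel, Real.exp_zero, mul_one,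
      add_neg_cancel, Gf_zero]
  right_inv := by
    intro x
    rw [Gf_Gf, add_neg_cancel, show -b * Real.exp (-s) + b * Real.exp (-s) = 0 by ring, Gf_zero]

theorem G_apply {k : ℕ} (b s : ℝ) (x : C2 k) : G (k := k) b s x = Gf b s x := rfl

theorem G_mul {k : ℕ} (b s b' s' : ℝ) :
    G (k := k) b s * G b' s' = G (b' + b * Real.exp s') (s + s') := by
  apply Equiv.ext
  intro x
  exact Gf_Gf b s b' s' x

theorem G_eq_one {k : ℕ} {b s : ℝ} (h : G (k := k) b s = 1) : b = 0 ∧ s = 0 := by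
  have h1 : ∀ q ∈ Icc (0 : E2) 1, F b (Real.exp s) q = q := by
    intro q hq
    let x : C2 k := ⟨Fin.append q 0, by
      constructor
      · intro i
        refine Fin.addCases (fun j => ?_) (fun j => ?_) i
        · rw [Fin.append_left]; exact hq.1 j
        · rw [Fin.append_right]; exact le_refl _
      · intro i
        refine Fin.addCases (fun j => ?_) (fun j => ?_) i
        · rw [Fin.append_left]; exact hq.2 j
        · rw [Fin.append_right]; exact zero_le_one⟩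
    have hx : (fun i : Fin 2 => x.1 (Fin.castAdd k i)) = q := by
      funext i
      exact Fin.append_left _ _ i
    have e : Gf b s x = x := congrArg (fun g : Equiv.Perm (C2 k) => g x) h
    have := Gf_left b s x
    rw [e, hx] at this
    exact this.symm
  obtain ⟨h2, h3⟩ := F_faithful (Real.exp_pos s) h1
  exact ⟨h2, by rwa [Real.exp_eq_one_iff] at h3⟩

/-- The value of a family of integers at the exponentials. -/
noncomputable def ev {n : ℕ} (s : Fin n → ℝ) (c : (Fin n → ℤ) →₀ ℤ) : ℝ :=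
  c.sum fun v k => (k : ℝ) * Real.exp (∑ i, (v i : ℝ) * s i)

/-- The exponents. -/
noncomputable def dt {n : ℕ} (s : Fin n → ℝ) (v : Fin n → ℤ) : ℝ := ∑ i, (v i : ℝ) * s i

theorem dt_add {n : ℕ} (s : Fin n → ℝ) (v w : Fin n → ℤ) : dt s (v + w) = dt s v + dt s w := by
  unfold dt
  rw [← Finset.sum_add_distrib]
  refine Finset.sum_congr rfl fun i _ => ?_
  rw [Pi.add_apply]
  push_cast
  ring

theorem ev_add {n : ℕ} (s : Fin n → ℝ) (c d : (Fin n → ℤ) →₀ ℤ) : ev s (c + d) = ev s c + ev s d := by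
  unfold ev
  rw [Finsupp.sum_add_index']
  · intro v; simp
  · intro v a b; push_cast; ring

theorem ev_shift {n : ℕ} (s : Fin n → ℝ) (r : Fin n → ℤ) (c : (Fin n → ℤ) →₀ ℤ) :
    ev s (c.equivMapDomain (Equiv.subRight r)) * Real.exp (dt s r) = ev s c := by
  unfold ev
  rw [Finsupp.sum_equivMapDomain]
  unfold Finsupp.sum
  rw [Finset.sum_mul]
  refine Finset.sum_congr rfl fun v _ => ?_
  rw [mul_assoc, ← Real.exp_add]
  congr 2
  have := dt_add s (v - r) r
  rw [sub_add_cancel] at this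
  exact this.symm

end Pool.Agent.H71.PLI
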